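import Pool.Agent.V8H86.TE.Defs

/-!
# Locality of the values, congruence of computations
-/

namespace Pool.Agent.V8H86.TE

open Finset Function

variable {k : ℕ} {O Q : Type}

/-- the node of a variable -/
def Var.node : Var k → List Bool
  | .leaf p => p
  | .entry p _ _ => p

theorem value_eq (J : Var k → Fin k) (n : ℕ) (p : List Bool) : value J n p = J (tau J n p) := by
  cases n <;> rfl

theorem tau_node (J : Var k → Fin k) (n : ℕ) (p : List Bool) : (tau J n p).node = p := by
  cases n <;> rfl

theorem value_congr {J J' : Var k → Fin k} (n : ℕ) : ∀ p : List Bool,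
    (∀ x : Var k, p <:+ x.node → J x = J' x) → value J n p = value J' n p := by
  induction n with
  | zero => intro p h; exact h _ (List.suffix_refl _)
  | succ n ih =>
    intro p h
    have h1 : ∀ b : Bool, value J n (b :: p) = value J' n (b :: p) := fun b =>
      ih _ fun x hx => h x ((List.suffix_cons b p).trans hx)
    simp only [value, h1]
    exact h _ (List.suffix_refl _)

theorem tau_congr {J J' : Var k → Fin k} (n : ℕ) (p : List Bool)
    (h : ∀ x : Var k, p <:+ x.node → x.node ≠ p → J x = J' x) : tau J n p = tau J' n p := by
  cases n with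
  | zero => rfl
  | succ n =>
    have h1 : ∀ b : Bool, value J n (b :: p) = value J' n (b :: p) := fun b =>
      value_congr n _ fun x hx => h x ((List.suffix_cons b p).trans hx) (by
        rintro rfl
        have := hx.length_le
        simp at this)
    simp only [tau, h1]

theorem nodeValue_eq (m : ℕ) (J : Var k → Fin k) (p : List Bool) :
    nodeValue m J p = J (rightVar m J p) := value_eq _ _ _

theorem tv_node (m : ℕ) (J : Var k → Fin k) (p : List Bool) : (rightVar m J p).node = p := tau_node _ _ _

theorem tv_ok {m : ℕ} (J : Var k → Fin k) {p : List Bool} (h : p.length ≤ m) : (rightVar m J p).Ok m := by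
  unfold rightVar
  rcases Nat.eq_zero_or_pos (m - p.length) with h0 | h0
  · rw [h0]
    change p.length = m
    omega
  · obtain ⟨n, hn⟩ : ∃ n, m - p.length = n + 1 := ⟨m - p.length - 1, by omega⟩
    rw [hn]
    change p.length < m
    omega

theorem nodeValue_congr {m : ℕ} {J J' : Var k → Fin k} {p : List Bool}
    (h : ∀ x : Var k, p <:+ x.node → J x = J' x) : nodeValue m J p = nodeValue m J' p :=
  value_congr _ _ h

theorem tv_congr {m : ℕ} {J J' : Var k → Fin k} {p : List Bool}
    (h : ∀ x : Var k, p <:+ x.node → x.node ≠ p → J x = J' x) : rightVar m J p = rightVar m J' p :=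
  tau_congr _ _ h

theorem line_injective (m : ℕ) (J : Var k → Fin k) (p : List Bool) (b : Bool) :
    Injective (line m J p b) := by
  intro c c' h
  cases b
  · simpa [line] using h
  · simpa [line] using h

theorem line_congr {m : ℕ} {J J' : Var k → Fin k} {p : List Bool} {b : Bool}
    (h : nodeValue m J ((!b) :: p) = nodeValue m J' ((!b) :: p)) : line m J p b = line m J' p b := by
  funext c
  cases b
  · simp only [line]
    rw [show nodeValue m J (true :: p) = nodeValue m J' (true :: p) from h]
  · simp only [line]
    rw [show nodeValue m J (false :: p) = nodeValue m J' (false :: p) from h]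

theorem tv_inner {m : ℕ} (J : Var k → Fin k) {p : List Bool} (h : p.length < m) (b : Bool) :
    rightVar m J p = line m J p b (nodeValue m J (b :: p)) := by
  obtain ⟨n, hn⟩ : ∃ n, m - p.length = n + 1 := ⟨m - p.length - 1, by omega⟩
  have h1 : ∀ b : Bool, m - (b :: p).length = n := fun b => by
    rw [List.length_cons]; omega
  cases b
  · unfold rightVar line nodeValue
    rw [h1, h1, hn]
    rfl
  · unfold rightVar line nodeValue
    rw [h1, h1, hn]
    rfl

/-! ### computations -/

theorem step_inl (B : Prog k O Q) (J : Var k → Fin k) {q : Q} {x : Var k}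
    (h : B.label q = .inl x) : B.step J q = B.next q (J x) := by
  unfold Prog.step
  rw [h]

theorem step_inr (B : Prog k O Q) (J : Var k → Fin k) {q : Q} {c : O}
    (h : B.label q = .inr c) : B.step J q = q := by
  unfold Prog.step
  rw [h]

theorem run_congr (B : Prog k O Q) {J J' : Var k → Fin k} (q : Q) (s : ℕ)
    (h : ∀ r < s, ∀ x, B.label ((B.step J)^[r] q) = .inl x → J x = J' x) :
    (B.step J)^[s] q = (B.step J')^[s] q := by
  induction s with
  | zero => rfl
  | succ s ih =>
    rw [iterate_succ_apply', iterate_succ_apply', ← ih fun r hr => h r (by omega)]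
    have h1 := h s (Nat.lt_succ_self s)
    cases hx : B.label ((B.step J)^[s] q) with
    | inl x => rw [step_inl B J hx, step_inl B J' hx, h1 x hx]
    | inr c => rw [step_inr B J hx, step_inr B J' hx]

theorem halted (B : Prog k O Q) {J : Var k → Fin k} {q : Q} {s : ℕ} {c : O}
    (h : B.label ((B.step J)^[s] q) = .inr c) (d : ℕ) :
    (B.step J)^[s + d] q = (B.step J)^[s] q := by
  induction d with
  | zero => rfl
  | succ d ih => rw [← add_assoc, iterate_succ_apply', ih, step_inr B J h]

theorem halted_le (B : Prog k O Q) {J : Var k → Fin k} {q : Q} {s s' : ℕ} {c : O}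
    (h : B.label ((B.step J)^[s] q) = .inr c) (hs : s ≤ s') :
    B.label ((B.step J)^[s'] q) = .inr c := by
  obtain ⟨d, rfl⟩ := Nat.exists_eq_add_of_le hs
  rw [halted B h, h]

theorem output_unique (B : Prog k O Q) {J : Var k → Fin k} {q : Q} {s s' : ℕ} {c c' : O}
    (h : B.label ((B.step J)^[s] q) = .inr c) (h' : B.label ((B.step J)^[s'] q) = .inr c') :
    c = c' := by
  have h1 := halted_le B h (le_max_left s s')
  have h2 := halted_le B h' (le_max_right s s')
  rw [h1] at h2
  exact Sum.inr.inj h2

end Pool.Agent.V8H86.TE
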