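import Mathlib

/-!
# Counting inputs by changing the values at places that do not move
-/

namespace Pool.Agent.V8H86.TE

open Finset Function

variable {V A ι : Type} [DecidableEq V] [AddCommGroup A] [Fintype ι]

/-- add `u d` at the place `l d`, for all `d` -/
def shift (l : ι → V) (u : ι → A) (I : V → A) : V → A :=
  fun x => I x + ∑ d, if l d = x then u d else 0

theorem shift_shift_neg (l : ι → V) (u : ι → A) (I : V → A) : shift l (-u) (shift l u I) = I := by
  funext x
  simp only [shift, add_assoc, ← Finset.sum_add_distrib]
  have h : (∑ d, ((if l d = x then u d else 0) + if l d = x then (-u) d else 0)) = 0 := by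
    refine Finset.sum_eq_zero fun d _ => ?_
    split_ifs <;> simp
  rw [h, add_zero]

theorem shift_neg_shift (l : ι → V) (u : ι → A) (I : V → A) : shift l u (shift l (-u) I) = I := by
  have h := shift_shift_neg l (-u) I
  rwa [neg_neg] at h

/-- If the places do not move when the values there are changed, and if for each input at most `M`
of the changes lead into `S`, then `S` is small. -/
theorem count [Fintype V] [Fintype A] [DecidableEq ι] (loc : (V → A) → ι → V)
    (hloc : ∀ I u, loc (shift (loc I) u I) = loc I) (S : (V → A) → Prop) [DecidablePred S] (M : ℕ)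
    (hM : ∀ I, {u : ι → A | S (shift (loc I) u I)}.ncard ≤ M) :
    (univ.filter S).card * Fintype.card A ^ Fintype.card ι ≤ M * Fintype.card (V → A) := by
  classical
  have h1 : ∀ u : ι → A, (univ.filter fun I => S (shift (loc I) u I)).card =
      (univ.filter S).card := by
    intro u
    refine Finset.card_bij' (fun I _ => shift (loc I) u I) (fun I _ => shift (loc I) (-u) I)
      ?_ ?_ ?_ ?_
    · intro I hI
      simpa using hI
    · intro I hI
      rw [Finset.mem_filter] at hI ⊢
      refine ⟨mem_univ _, ?_⟩
      rw [hloc, shift_neg_shift]
      exact hI.2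
    · intro I _
      rw [hloc, shift_shift_neg]
    · intro I _
      rw [hloc, shift_neg_shift]
  have h2 : ∑ u : ι → A, (univ.filter fun I => S (shift (loc I) u I)).card =
      ∑ I : V → A, (univ.filter fun u : ι → A => S (shift (loc I) u I)).card := by
    simp only [Finset.card_filter]
    exact Finset.sum_comm
  have h3 : ∑ u : ι → A, (univ.filter fun I => S (shift (loc I) u I)).card =
      (univ.filter S).card * Fintype.card A ^ Fintype.card ι := by
    rw [Finset.sum_congr rfl fun u _ => h1 u, Finset.sum_const, Finset.card_univ, smul_eq_mul,
      Fintype.card_fun, mul_comm]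
  rw [← h3, h2]
  calc ∑ I : V → A, (univ.filter fun u : ι → A => S (shift (loc I) u I)).card
      ≤ ∑ _I : V → A, M := by
        refine Finset.sum_le_sum fun I _ => ?_
        refine le_trans (le_of_eq ?_) (hM I)
        rw [Set.ncard_eq_toFinset_card']
        congr 1
        ext u
        simp
    _ = M * Fintype.card (V → A) := by
        rw [Finset.sum_const, Finset.card_univ, smul_eq_mul, mul_comm]

end Pool.Agent.V8H86.TE
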