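import Pool.Agent.V8H86.TE.Basic

/-!
# Critical times and pebbles
-/

namespace Pool.Agent.V8H86.TE

open Finset Function

variable {k : ℕ} {O Q : Type}

/-- no lucky reads -/
def Prog.Good (B : Prog k O Q) (m : ℕ) (J : Var k → Fin k) : Prop :=
  ∀ p : List Bool, p.length < m → ∀ b : Bool, ∀ s, B.ReadsAt J s (rightVar m J p) →
    ∃ s' < s, B.ReadsAt J s' (rightVar m J (b :: p))

open Classical in
/-- the critical times -/
noncomputable def crit (B : Prog k O Q) (m : ℕ) (J : Var k → Fin k) (s₀ : ℕ) : List Bool → ℕ
  | [] => s₀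
  | b :: p => Nat.findGreatest (fun s => B.ReadsAt J s (rightVar m J (b :: p))) (crit B m J s₀ p - 1)

section crit

variable {B : Prog k O Q} {m : ℕ} {J : Var k → Fin k} {s₀ : ℕ}

theorem crit_at (hg : B.Good m J) (h0 : B.ReadsAt J s₀ (rightVar m J [])) : ∀ p : List Bool, p.length ≤ m →
    B.ReadsAt J (crit B m J s₀ p) (rightVar m J p) := by
  classical
  intro p
  induction p with
  | nil => intro _; exact h0
  | cons b p ih =>
    intro hp
    rw [List.length_cons] at hp
    obtain ⟨s', h1, h2⟩ := hg p (by omega) b _ (ih (by omega))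
    exact Nat.findGreatest_spec (P := fun s => B.ReadsAt J s (rightVar m J (b :: p)))
      (n := crit B m J s₀ p - 1) (m := s') (by omega) h2

theorem crit_lt (hg : B.Good m J) (h0 : B.ReadsAt J s₀ (rightVar m J [])) {b : Bool} {p : List Bool}
    (hp : p.length < m) : crit B m J s₀ (b :: p) < crit B m J s₀ p := by
  classical
  obtain ⟨s', h1, h2⟩ := hg p hp b _ (crit_at hg h0 p hp.le)
  have h3 : crit B m J s₀ (b :: p) ≤ crit B m J s₀ p - 1 := Nat.findGreatest_le _
  omega

theorem crit_fresh {b : Bool} {p : List Bool} {r : ℕ} (h1 : crit B m J s₀ (b :: p) < r)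
    (h2 : r < crit B m J s₀ p) : ¬ B.ReadsAt J r (rightVar m J (b :: p)) := by
  classical
  exact Nat.findGreatest_is_greatest (P := fun s => B.ReadsAt J s (rightVar m J (b :: p))) h1 (by omega)

theorem crit_mono (hg : B.Good m J) (h0 : B.ReadsAt J s₀ (rightVar m J [])) {p : List Bool} (l : List Bool)
    (hq : (l ++ p).length ≤ m) : crit B m J s₀ (l ++ p) ≤ crit B m J s₀ p := by
  induction l with
  | nil => exact le_rfl
  | cons b l ih =>
    have hq' : (l ++ p).length < m := hq
    exact (crit_lt hg h0 hq').le.trans (ih hq'.le)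

theorem branch {b : Bool} {p q : List Bool} (h1 : (b :: p) <:+ q) (h2 : ((!b) :: p) <:+ q) :
    False := by
  have h3 := List.suffix_of_suffix_length_le h1 h2 (by simp)
  have h4 := h3.eq_of_length (by simp)
  have h5 := (List.cons.inj h4).1
  cases b <;> simp at h5

/-- the pebble below the node `c :: p` on the leftmost path, at distance `d`: its last letter -/
def pb (c : Bool) : ℕ → Bool
  | 0 => c
  | _ + 1 => false

/-- its parent -/
def pp (c : Bool) (p : List Bool) : ℕ → List Bool
  | 0 => p
  | d + 1 => List.replicate d false ++ (c :: p)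

theorem pb_pp (c : Bool) (p : List Bool) (d : ℕ) :
    pb c d :: pp c p d = List.replicate d false ++ (c :: p) := by
  cases d with
  | zero => rfl
  | succ d => rfl

theorem pp_suffix (c : Bool) (p : List Bool) (d : ℕ) :
    pp c p d = p ∨ (c :: p) <:+ pp c p d := by
  cases d with
  | zero => exact Or.inl rfl
  | succ d => exact Or.inr (List.suffix_append _ _)

theorem walk {c : Bool} {p : List Bool} {s : ℕ} (hs : s ≤ crit B m J s₀ p) (n : ℕ)
    (hn : crit B m J s₀ (List.replicate n false ++ (c :: p)) < s) :
    ∃ d ≤ n, crit B m J s₀ (pb c d :: pp c p d) < s ∧ s ≤ crit B m J s₀ (pp c p d) := by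
  induction n with
  | zero => exact ⟨0, le_rfl, hn, hs⟩
  | succ n ih =>
    rcases lt_or_ge (crit B m J s₀ (List.replicate n false ++ (c :: p))) s with h | h
    · obtain ⟨d, h1, h2, h3⟩ := ih h
      exact ⟨d, by omega, h2, h3⟩
    · exact ⟨n + 1, le_rfl, hn, h⟩

/-- the last letter of the pebble number `j` for the leaf `l` -/
def bt {m : ℕ} (l : List.Vector Bool m) (d : Fin m → Fin m) (j : Fin m) : Bool :=
  pb (!(l.get j)) (d j)

/-- its parent -/
def pt {m : ℕ} (l : List.Vector Bool m) (d : Fin m → Fin m) (j : Fin m) : List Bool :=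
  pp (!(l.get j)) (l.toList.drop (j + 1)) (d j)

theorem drop_eq {m : ℕ} (l : List.Vector Bool m) (j : Fin m) :
    l.toList.drop j = l.get j :: l.toList.drop (j + 1) := by
  have h : (j : ℕ) < l.toList.length := by rw [List.Vector.toList_length]; exact j.2
  rw [List.drop_eq_getElem_cons h]
  rfl

theorem pebbles (hg : B.Good m J) (h0 : B.ReadsAt J s₀ (rightVar m J [])) :
    ∃ (l : List.Vector Bool m) (d : Fin m → Fin m) (s : ℕ), (∀ j, (d j : ℕ) ≤ j) ∧
      ∀ j, crit B m J s₀ (bt l d j :: pt l d j) < s ∧ s ≤ crit B m J s₀ (pt l d j) := by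
  obtain ⟨l, -, hmax⟩ := Set.exists_max_image (Set.univ : Set (List.Vector Bool m))
    (fun l => crit B m J s₀ l.toList) Set.finite_univ ⟨List.Vector.replicate m false, trivial⟩
  have key : ∀ j : Fin m, ∃ d ≤ (j : ℕ),
      crit B m J s₀ (pb (!(l.get j)) d :: pp (!(l.get j)) (l.toList.drop (j + 1)) d) <
        crit B m J s₀ l.toList + 1 ∧
      crit B m J s₀ l.toList + 1 ≤ crit B m J s₀ (pp (!(l.get j)) (l.toList.drop (j + 1)) d) := by
    intro j
    have hlen : (l.toList.drop (j + 1)).length = m - (j + 1) := by
      rw [List.length_drop, List.Vector.toList_length]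
    have hj := j.2
    have h1 : crit B m J s₀ l.toList ≤ crit B m J s₀ (l.toList.drop j) := by
      have h2 := crit_mono hg h0 (p := l.toList.drop j) (l.toList.take j) (by
        rw [List.take_append_drop, List.Vector.toList_length])
      rwa [List.take_append_drop] at h2
    have h2 := crit_lt hg h0 (b := l.get j) (p := l.toList.drop (j + 1)) (by omega)
    rw [← drop_eq] at h2
    refine walk (by omega) j ?_
    have h3 := hmax ⟨List.replicate j false ++ ((!(l.get j)) :: l.toList.drop (j + 1)), by
      rw [List.length_append, List.length_replicate, List.length_cons, hlen]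
      omega⟩ trivial
    exact Nat.lt_succ_of_le h3
  choose d hd1 hd2 using key
  exact ⟨l, fun j => ⟨d j, (hd1 j).trans_lt j.2⟩, _, hd1, hd2⟩

end crit

/-! ### the positions are admissible -/

theorem pt_length {m : ℕ} (l : List.Vector Bool m) {d : Fin m → Fin m} (hd : ∀ j, (d j : ℕ) ≤ j)
    (j : Fin m) : (pt l d j).length < m := by
  have h1 := congrArg List.length (pb_pp (!(l.get j)) (l.toList.drop (j + 1)) (d j))
  rw [List.length_cons, List.length_append, List.length_replicate, List.length_cons,
    List.length_drop, List.Vector.toList_length] at h1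
  have h2 := hd j
  have h3 := j.2
  unfold pt
  omega

theorem pt_sep {m : ℕ} (l : List.Vector Bool m) (d : Fin m → Fin m) {i j : Fin m} (h : i < j) :
    pt l d i ≠ pt l d j ∧ ¬ (bt l d i :: pt l d i) <:+ (bt l d j :: pt l d j) ∧
      ¬ (bt l d j :: pt l d j) <:+ (bt l d i :: pt l d i) := by
  -- both the pebble `i` and its parent are below the node `l.drop j`
  have h1 : (l.get j :: l.toList.drop (j + 1)) <:+ l.toList.drop (i + 1) := by
    rw [← drop_eq]
    have h2 : l.toList.drop j = (l.toList.drop (i + 1)).drop (j - (i + 1)) := by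
      rw [List.drop_drop]
      congr 1
      have : (i : ℕ) < j := h
      omega
    rw [h2]
    exact List.drop_suffix _ _
  have h2 : (l.get j :: l.toList.drop (j + 1)) <:+ pt l d i := by
    unfold pt
    rcases pp_suffix (!(l.get i)) (l.toList.drop (i + 1)) (d i) with h3 | h3
    · rw [h3]; exact h1
    · exact (h1.trans (List.suffix_cons _ _)).trans h3
  have h3 : ((!(l.get j)) :: l.toList.drop (j + 1)) <:+ (bt l d j :: pt l d j) := by
    unfold bt pt
    rw [pb_pp]
    exact List.suffix_append _ _
  refine ⟨?_, ?_, ?_⟩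
  · intro h4
    rw [h4] at h2
    unfold pt at h2
    rcases pp_suffix (!(l.get j)) (l.toList.drop (j + 1)) (d j) with h5 | h5
    · rw [h5] at h2
      have := h2.length_le
      simp at this
    · exact branch h2 h5
  · intro h4
    exact branch ((h2.trans (List.suffix_cons _ _)).trans h4) h3
  · intro h4
    exact branch (h2.trans (List.suffix_cons _ _)) (h3.trans h4)

end Pool.Agent.V8H86.TE
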