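import Pool.Agent.V8H86.TE.Crit

/-!
# A state and the places of the pebbles leave few possibilities for the values of the pebbles
-/

namespace Pool.Agent.V8H86.TE

open Finset Function

variable {k : ℕ} {O Q : Type}

/-- admissible positions of pebbles: the pebbles `β i :: π i` are incomparable, and no two of them
are siblings -/
def Adm {m : ℕ} (β : Fin m → Bool) (π : Fin m → List Bool) : Prop :=
  (∀ i, (π i).length < m) ∧ ∀ i j, i ≠ j → π i ≠ π j ∧ ¬ (β i :: π i) <:+ (β j :: π j)

/-- the first time at which the value of the pebble is revealed -/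
noncomputable def fst (B : Prog k O Q) (m : ℕ) (q : Q) (p : List Bool) (J : Var k → Fin k) : ℕ :=
  sInf {r | B.label ((B.step J)^[r] q) = .inl (rightVar m J p)}

/-- The computation from the state `q` reveals the values of the pebbles before it reads them. -/
def Cls (B : Prog k O Q) (m t : ℕ) (q : Q) (β : Fin m → Bool) (π : Fin m → List Bool)
    (J : Var k → Fin k) : Prop :=
  ∃ ρ : Fin m → ℕ,
    (∀ i, B.label ((B.step J)^[ρ i] q) = .inl (rightVar m J (π i))) ∧
    (∀ i, ∀ r < ρ i, B.label ((B.step J)^[r] q) ≠ .inl (rightVar m J (β i :: π i))) ∧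
    (∀ i j, ((!(β i)) :: π i) <:+ (β j :: π j) → ρ j ≤ ρ i) ∧
    ∀ i, {c | ∃ r ≤ fst B m q (π i) J, B.label ((B.step J)^[r] q) =
      .inl (line m J (π i) (β i) c)}.ncard ≤ t

theorem fst_spec {B : Prog k O Q} {m : ℕ} {q : Q} {J : Var k → Fin k} {p : List Bool} {ρ : ℕ}
    (h : B.label ((B.step J)^[ρ] q) = .inl (rightVar m J p)) :
    B.label ((B.step J)^[fst B m q p J] q) = .inl (rightVar m J p) ∧ fst B m q p J ≤ ρ ∧
    ∀ r < fst B m q p J, B.label ((B.step J)^[r] q) ≠ .inl (rightVar m J p) := by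
  have hne : {r | B.label ((B.step J)^[r] q) = .inl (rightVar m J p)}.Nonempty := ⟨ρ, h⟩
  exact ⟨Nat.sInf_mem hne, Nat.sInf_le h, fun r hr => Nat.notMem_of_lt_sInf hr⟩

/-- good inputs belong to a class -/
theorem cls_of_good {B : Prog k O Q} {m t : ℕ} {J : Var k → Fin k} {s₀ : ℕ} (hg : B.Good m J)
    (h0 : B.ReadsAt J s₀ (rightVar m J [])) (hf : B.Frugal m t J) :
    ∃ (q : Q) (l : List.Vector Bool m) (d : Fin m → Fin m), Adm (bt l d) (pt l d) ∧
      Cls B m t q (bt l d) (pt l d) J := by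
  obtain ⟨l, d, s, hd, hc⟩ := pebbles hg h0
  have hadm : Adm (bt l d) (pt l d) := by
    refine ⟨pt_length l hd, fun i j hij => ?_⟩
    rcases lt_or_gt_of_ne hij with h | h
    · exact ⟨(pt_sep l d h).1, (pt_sep l d h).2.1⟩
    · exact ⟨(pt_sep l d h).1.symm, (pt_sep l d h).2.2⟩
  obtain ⟨β, hβ⟩ : ∃ β, β = bt l d := ⟨_, rfl⟩
  obtain ⟨π, hπ⟩ : ∃ π, π = pt l d := ⟨_, rfl⟩
  refine ⟨(B.step J)^[s] B.start, l, d, hadm, ?_⟩
  rw [← hβ, ← hπ] at hadm ⊢
  have h1 : ∀ i, (π i).length < m ∧ True ∧ crit B m J s₀ (β i :: π i) < s ∧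
      s ≤ crit B m J s₀ (π i) := by
    intro i
    rw [hβ, hπ]
    exact ⟨pt_length l hd i, trivial, (hc i).1, (hc i).2⟩
  have h2 := hadm.2
  have hit : ∀ r, (B.step J)^[r] ((B.step J)^[s] B.start) = (B.step J)^[r + s] B.start := fun r =>
    (iterate_add_apply _ _ _ _).symm
  refine ⟨fun i => crit B m J s₀ (π i) - s, ?_, ?_, ?_, ?_⟩
  · intro i
    rw [hit, Nat.sub_add_cancel (h1 i).2.2.2]
    exact crit_at hg h0 _ (h1 i).1.le
  · intro i r hr
    rw [hit]
    dsimp only at hr
    refine crit_fresh (s₀ := s₀) ?_ (by omega)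
    have := (h1 i).2.2.1
    omega
  · intro i j hij
    rcases List.suffix_cons_iff.1 hij with h | h
    · exfalso
      obtain ⟨h3, h4⟩ := List.cons.inj h
      by_cases he : i = j
      · subst he
        cases hb : β i <;> rw [hb] at h3 <;> simp at h3
      · exact (h2 i j he).1 h4
    · obtain ⟨l, hl⟩ := h
      have h3 : (π j).length < m := (h1 j).1
      have h4 := crit_mono hg h0 (p := (!(β i)) :: π i) l (by rw [hl]; omega)
      rw [hl] at h4
      have h5 := crit_lt hg h0 (b := !(β i)) (h1 i).1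
      dsimp only
      omega
  · intro i
    have g0 : B.label ((B.step J)^[crit B m J s₀ (π i) - s] ((B.step J)^[s] B.start)) =
        .inl (rightVar m J (π i)) := by
      rw [hit, Nat.sub_add_cancel (h1 i).2.2.2]
      exact crit_at hg h0 _ (h1 i).1.le
    obtain ⟨g1, g2, g3⟩ := fst_spec g0
    rw [hit] at g1
    have h3 := (h1 i).2.2
    refine le_trans (Set.ncard_le_ncard ?_ (Set.toFinite _))
      (hf (π i) (β i) s (fst B m ((B.step J)^[s] B.start) (π i) J + s) (h1 i).1 g1 ?_)
    · rintro c ⟨r, hr1, hr⟩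
      rw [hit] at hr
      exact ⟨r + s, by omega, by omega, hr⟩
    · intro r hr1 hr2
      constructor
      · have h4 := g3 (r - s) (by omega)
        rw [hit, Nat.sub_add_cancel hr1] at h4
        exact h4
      · exact crit_fresh (s₀ := s₀) (by omega) (by omega)

/-- the number of entries of the line that are read before -/
noncomputable def rank (B : Prog k O Q) (m : ℕ) (q : Q) (b : Bool) (p : List Bool)
    (J : Var k → Fin k) : ℕ :=
  {c | ∃ r < fst B m q p J, B.label ((B.step J)^[r] q) = .inl (line m J p b c)}.ncard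

section

variable {B : Prog k O Q} {m t : ℕ} {q : Q}

theorem rank_lt {β : Fin m → Bool} {π : Fin m → List Bool} (ha : Adm β π) {J : Var k → Fin k}
    (h : Cls B m t q β π J) (i : Fin m) : rank B m q (β i) (π i) J < t := by
  obtain ⟨ρ, h1, -, -, h4⟩ := h
  obtain ⟨g1, g2, g3⟩ := fst_spec (h1 i)
  refine lt_of_lt_of_le (Set.ncard_lt_ncard ?_ (Set.toFinite _)) (h4 i)
  constructor
  · rintro c ⟨r, hr1, hr⟩
    exact ⟨r, hr1.le, hr⟩
  · intro hsub
    have h5 : nodeValue m J (β i :: π i) ∈ {c | ∃ r ≤ fst B m q (π i) J,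
        B.label ((B.step J)^[r] q) = .inl (line m J (π i) (β i) c)} := by
      refine ⟨_, le_rfl, ?_⟩
      rw [← tv_inner J (ha.1 i)]
      exact g1
    obtain ⟨r, hr1, hr2⟩ := hsub h5
    rw [← tv_inner J (ha.1 i)] at hr2
    exact g3 r hr1 hr2

theorem rank_lt_rank {J J' : Var k → Fin k} {b : Bool} {p : List Bool} (hp : p.length < m) {ρ ρ' : ℕ}
    (h : B.label ((B.step J)^[ρ] q) = .inl (rightVar m J p))
    (hv : line m J p b = line m J' p b)
    (hst : ∀ r ≤ ρ', (B.step J)^[r] q = (B.step J')^[r] q)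
    (h' : B.label ((B.step J')^[ρ'] q) = .inl (rightVar m J' p))
    (hlt : fst B m q p J < fst B m q p J') :
    rank B m q b p J < rank B m q b p J' := by
  obtain ⟨g1, g2, g3⟩ := fst_spec h
  obtain ⟨g1', g2', g3'⟩ := fst_spec h'
  refine Set.ncard_lt_ncard ?_ (Set.toFinite _)
  constructor
  · rintro c ⟨r, hr, hr2⟩
    refine ⟨r, by omega, ?_⟩
    rw [← hst r (by omega), ← hv]
    exact hr2
  · intro hsub
    have h5 : nodeValue m J (b :: p) ∈ {c | ∃ r < fst B m q p J',
        B.label ((B.step J')^[r] q) = .inl (line m J' p b c)} := by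
      refine ⟨fst B m q p J, hlt, ?_⟩
      rw [← hst _ (by omega), ← hv, ← tv_inner J hp]
      exact g1
    obtain ⟨r, hr1, hr2⟩ := hsub h5
    rw [← tv_inner J hp] at hr2
    exact g3 r hr1 hr2

/-- **Decoding.** -/
theorem decode {β : Fin m → Bool} {π : Fin m → List Bool} (ha : Adm β π) {J J' : Var k → Fin k}
    (hJ : ∀ x, J x ≠ J' x → ∃ i, x = rightVar m J (β i :: π i))
    (h : Cls B m t q β π J) (h' : Cls B m t q β π J')
    (hr : ∀ i, rank B m q (β i) (π i) J = rank B m q (β i) (π i) J') : J = J' := by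
  classical
  -- the places are the same
  have hloc : ∀ i, rightVar m J (β i :: π i) = rightVar m J' (β i :: π i) := by
    intro i
    refine tv_congr fun x hx hxn => ?_
    by_contra hne
    obtain ⟨j, rfl⟩ := hJ x hne
    rw [tv_node] at hx hxn
    by_cases hij : i = j
    · exact hxn (by rw [hij])
    · exact (ha.2 i j hij).2 hx
  by_contra hne
  obtain ⟨x, hx⟩ : ∃ x, J x ≠ J' x := by
    by_contra hcon
    push Not at hcon
    exact hne (funext hcon)
  obtain ⟨i₀, rfl⟩ := hJ x hx
  obtain ⟨ρ, h1, h2, h3, -⟩ := h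
  obtain ⟨ρ', h1', h2', h3', -⟩ := h'
  -- `i` is in `W` if the value is different
  let W : Fin m → Prop := fun i => J (rightVar m J (β i :: π i)) ≠ J' (rightVar m J (β i :: π i))
  -- reading a variable with different values
  let E : ℕ → Prop := fun r => ∃ i, W i ∧ B.label ((B.step J)^[r] q) = .inl (rightVar m J (β i :: π i))
  have hcommon : ∀ r, (∀ r' < r, ¬ E r') → (B.step J)^[r] q = (B.step J')^[r] q := by
    intro r hE
    refine run_congr B q r fun r' hr' x hx => ?_
    by_contra hne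
    obtain ⟨i, rfl⟩ := hJ x hne
    exact hE r' hr' ⟨i, hne, hx⟩
  let early : Fin m → Prop := fun i => (∀ r' < ρ i, ¬ E r') ∧ (∀ r' < ρ' i, ¬ E r')
  have hex : ∃ i, W i ∧ early i := by
    by_cases hE : ∃ r, E r
    · obtain ⟨i, hi, hir⟩ := Nat.find_spec hE
      have hmin : ∀ r' < Nat.find hE, ¬ E r' := fun r' hr' => Nat.find_min hE hr'
      have hle : ρ i ≤ Nat.find hE := by
        by_contra hcon
        exact h2 i _ (not_le.1 hcon) hir
      have hle' : ρ' i ≤ Nat.find hE := by
        by_contra hcon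
        refine h2' i _ (not_le.1 hcon) ?_
        rw [← hcommon _ hmin, ← hloc i]
        exact hir
      exact ⟨i, hi, fun r' hr' => hmin r' (by omega), fun r' hr' => hmin r' (by omega)⟩
    · push Not at hE
      exact ⟨i₀, hx, fun r' _ => hE r', fun r' _ => hE r'⟩
  -- the lowest one
  obtain ⟨i, hi, hmax⟩ := Finset.exists_max_image (univ.filter fun i => W i ∧ early i)
    (fun i => (π i).length) (by
      obtain ⟨i, hi⟩ := hex
      exact ⟨i, by simpa using hi⟩)
  rw [Finset.mem_filter] at hi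
  obtain ⟨-, hW, hE1, hE2⟩ := hi
  have hsub : ∀ j, ((!(β i)) :: π i) <:+ (β j :: π j) → ¬ W j := by
    intro j hij hWj
    have hej : early j :=
      ⟨fun r' hr' => hE1 r' (by have := h3 i j hij; omega),
        fun r' hr' => hE2 r' (by have := h3' i j hij; omega)⟩
    have hlen := hmax j (by simpa using ⟨hWj, hej⟩)
    have hlen2 := hij.length_le
    simp only [List.length_cons] at hlen2
    have heq := hij.eq_of_length (by simp only [List.length_cons]; omega)
    obtain ⟨h5, h6⟩ := List.cons.inj heq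
    by_cases he : i = j
    · subst he
      cases hb : β i <;> rw [hb] at h5 <;> simp at h5
    · exact (ha.2 i j he).1 h6
  have hv : line m J (π i) (β i) = line m J' (π i) (β i) := by
    refine line_congr (nodeValue_congr fun x hx => ?_)
    by_contra hne
    obtain ⟨j, rfl⟩ := hJ x hne
    rw [tv_node] at hx
    exact hsub j hx hne
  have hst : ∀ r ≤ ρ i, (B.step J)^[r] q = (B.step J')^[r] q := fun r hr =>
    hcommon r fun r' hr' => hE1 r' (by omega)
  have hst' : ∀ r ≤ ρ' i, (B.step J)^[r] q = (B.step J')^[r] q := fun r hr =>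
    hcommon r fun r' hr' => hE2 r' (by omega)
  rcases lt_trichotomy (fst B m q (π i) J) (fst B m q (π i) J') with hlt | heq | hlt
  · exact absurd (hr i) (rank_lt_rank (ha.1 i) (h1 i) hv hst' (h1' i) hlt).ne
  · obtain ⟨g1, g2, g3⟩ := fst_spec (h1 i)
    obtain ⟨g1', g2', g3'⟩ := fst_spec (h1' i)
    rw [← heq, ← hst _ g2, g1] at g1'
    have h5 := Sum.inl.inj g1'
    rw [tv_inner J (ha.1 i) (β i), tv_inner J' (ha.1 i) (β i), ← hv] at h5
    have h6 := line_injective _ _ _ _ h5
    rw [nodeValue_eq, nodeValue_eq, ← hloc i] at h6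
    exact hW h6
  · exact absurd (hr i) (rank_lt_rank (ha.1 i) (h1' i) hv.symm (fun r hr => (hst r hr).symm)
      (h1 i) hlt).ne'

end

end Pool.Agent.V8H86.TE
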