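import Mathlib

/-!
# The tree evaluation problem and branching programs

The nodes of the complete binary tree of depth `m` are the words `p` of length at most `m` over
`Bool`: `[]` is the root, and `false :: p`, `true :: p` are the left and the right child of `p`.
-/

namespace Pool.Agent.V8H86.TE

/-- The variables of the tree evaluation problem with values in `Fin k`: `leaf p` is the number at
the leaf `p`; `entry p a b` is the entry in row `a` and column `b` of the table of the inner
node `p`. -/
inductive Var (k : ℕ)
  | leaf (p : List Bool)
  | entry (p : List Bool) (a b : Fin k)
  deriving DecidableEq

variable {k : ℕ}

/-- The variable belongs to the tree of depth `m`: the leaves have depth `m`, the inner nodes have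
a smaller depth. -/
def Var.Ok (m : ℕ) : Var k → Prop
  | .leaf p => p.length = m
  | .entry p _ _ => p.length < m

instance (m : ℕ) (x : Var k) : Decidable (x.Ok m) := by
  cases x <;> unfold Var.Ok <;> infer_instance

/-- An input for the tree of depth `m`: a number for each leaf and a table of `k * k` numbers for
each inner node. -/
abbrev Input (m k : ℕ) : Type := {x : Var k // x.Ok m} → Fin k

/-- The value of a variable; variables that do not belong to the tree have value `0`. -/
def look {m : ℕ} [NeZero k] (I : Input m k) (x : Var k) : Fin k :=
  if h : x.Ok m then I ⟨x, h⟩ else 0

/-- The value of the node `p` if it has height `n`: the number at `p` if `n = 0`, and the entry of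
the table of `p` in the row given by the value of the left child and the column given by the value
of the right child if `n > 0`. -/
def value (J : Var k → Fin k) : ℕ → List Bool → Fin k
  | 0, p => J (.leaf p)
  | n + 1, p => J (.entry p (value J n (false :: p)) (value J n (true :: p)))

/-- The value of the node `p` of the tree of depth `m`. -/
def nodeValue (m : ℕ) (J : Var k → Fin k) (p : List Bool) : Fin k := value J (m - p.length) p

/-- The variable that gives the value of the node `p` if it has height `n`: the leaf `p` if
`n = 0`, and the right entry of the table of `p` if `n > 0`. -/
def tau (J : Var k → Fin k) : ℕ → List Bool → Var k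
  | 0, p => .leaf p
  | n + 1, p => .entry p (value J n (false :: p)) (value J n (true :: p))

/-- The variable that gives the value of the node `p` of the tree of depth `m`: the leaf `p`, or
the right entry of the inner node `p`, which is in the row given by the value of its left child and
in the column given by the value of its right child. -/
def rightVar (m : ℕ) (J : Var k → Fin k) (p : List Bool) : Var k := tau J (m - p.length) p

/-- The right line of the inner node `p` for its child `b :: p`: the entries that are obtained from
the right entry by replacing the value of this child by any `c`. The line for the left child is a
column, the line for the right child is a row. -/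
def line (m : ℕ) (J : Var k → Fin k) (p : List Bool) : Bool → Fin k → Var k
  | false, c => .entry p c (nodeValue m J (true :: p))
  | true, c => .entry p (nodeValue m J (false :: p)) c

/-- A deterministic branching program with the set `Q` of states and outputs in `O`: a state either
reads a variable, and the next state depends on its value, or it is an output state. -/
structure Prog (k : ℕ) (O Q : Type) where
  start : Q
  label : Q → Var k ⊕ O
  next : Q → Fin k → Q

variable {O Q : Type}

/-- One step; the program halts in output states. -/
def Prog.step (B : Prog k O Q) (J : Var k → Fin k) (q : Q) : Q :=
  match B.label q with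
  | .inl x => B.next q (J x)
  | .inr _ => q

/-- The variable `x` is read at time `s`. -/
def Prog.ReadsAt (B : Prog k O Q) (J : Var k → Fin k) (s : ℕ) (x : Var k) : Prop :=
  B.label ((B.step J)^[s] B.start) = .inl x

/-- An output state with the output `c` is reached. -/
def Prog.Outputs (B : Prog k O Q) (J : Var k → Fin k) (c : O) : Prop :=
  ∃ s : ℕ, B.label ((B.step J)^[s] B.start) = .inr c

/-- An output state with the output `c` is reached in at most `T` steps. -/
def Prog.OutputsBy (B : Prog k O Q) (J : Var k → Fin k) (T : ℕ) (c : O) : Prop :=
  ∃ s ≤ T, B.label ((B.step J)^[s] B.start) = .inr c

/-- Let `b :: p` be a child of the inner node `p`, and consider a time interval from `s` to `s'`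
such that the right entry of `p` is read at the time `s'` but not before in this interval, and the
variable that gives the value of `b :: p` is not read in it. Then at most `t` different entries of
the right line of `p` for `b :: p` are read in the interval. -/
def Prog.Frugal (B : Prog k O Q) (m t : ℕ) (J : Var k → Fin k) : Prop :=
  ∀ (p : List Bool) (b : Bool) (s s' : ℕ), p.length < m → B.ReadsAt J s' (rightVar m J p) →
    (∀ r, s ≤ r → r < s' → ¬ B.ReadsAt J r (rightVar m J p) ∧
      ¬ B.ReadsAt J r (rightVar m J (b :: p))) →
    {c | ∃ r, s ≤ r ∧ r ≤ s' ∧ B.ReadsAt J r (line m J p b c)}.ncard ≤ t

end Pool.Agent.V8H86.TE
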