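import Pool.Agent.V8H86.TE.Main

/-!
# Consequences of the main theorem
-/

namespace Pool.Agent.V8H86.TE

open Finset Function

variable {k : ℕ} {O Q : Type}

/-- at most `T` variables are read in `T` steps -/
theorem ncard_reads {B : Prog k O Q} {J : Var k → Fin k} {T : ℕ} {c₀ : O}
    (h : B.OutputsBy J T c₀) (x : Fin k → Var k) (hx : Injective x) :
    {c | ∃ s, B.ReadsAt J s (x c)}.ncard ≤ T := by
  classical
  obtain ⟨s, hs, hout⟩ := h
  have h1 : ∀ c ∈ {c | ∃ s, B.ReadsAt J s (x c)}, ∃ r < s, B.ReadsAt J r (x c) := by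
    rintro c ⟨r, hr⟩
    refine ⟨r, ?_, hr⟩
    by_contra hcon
    unfold Prog.ReadsAt at hr
    rw [halted_le B hout (not_lt.1 hcon)] at hr
    cases hr
  choose! r hr1 hr2 using h1
  have h2 : {c | ∃ s, B.ReadsAt J s (x c)}.ncard ≤ ((range s : Finset ℕ) : Set ℕ).ncard := by
    refine Set.ncard_le_ncard_of_injOn r ?_ ?_ (Finset.finite_toSet _)
    · intro c hc
      simpa using hr1 c hc
    · intro c hc c' hc' heq
      have h3 := hr2 c hc
      have h4 := hr2 c' hc'
      unfold Prog.ReadsAt at h3 h4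
      rw [heq, h4] at h3
      exact hx (Sum.inl.inj h3).symm
  rw [Set.ncard_coe_finset, Finset.card_range] at h2
  omega

/-- few entries of the right lines are read in all -/
theorem frugal_of_total {B : Prog k O Q} {J : Var k → Fin k} {m t : ℕ}
    (h : ∀ (p : List Bool) (b : Bool), p.length < m →
      {c | ∃ s, B.ReadsAt J s (line m J p b c)}.ncard ≤ t) : B.Frugal m t J := by
  intro p b s s' hp _ _
  refine le_trans (Set.ncard_le_ncard ?_ (Set.toFinite _)) (h p b hp)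
  rintro c ⟨r, _, _, hr⟩
  exact ⟨r, hr⟩

theorem frugal_of_outputsBy {B : Prog k O Q} {J : Var k → Fin k} {m T : ℕ} {c₀ : O}
    (h : B.OutputsBy J T c₀) : B.Frugal m T J :=
  frugal_of_total fun p b _ => ncard_reads h _ (line_injective m J p b)

variable [NeZero k]

theorem main' [Fintype Q] (B : Prog k O Q) (g : Fin k → O) {w : ℕ}
    (hw : ∀ c, {a | g a = c}.ncard ≤ w) (m t : ℕ) :
    (Nat.card {I : Input m k // B.Outputs (look I) (g (nodeValue m (look I) [])) ∧
      B.Frugal m t (look I)} : ℝ) ≤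
      (w / k + 2 ^ (m + 1) * t / k + Fintype.card Q * (2 * m * t / k) ^ m) *
        Nat.card (Input m k) := by
  classical
  have h := main B g hw m t
  rw [Nat.card_eq_fintype_card, Nat.card_eq_fintype_card, Fintype.card_subtype]
  exact h

theorem main_time [Fintype Q] (B : Prog k O Q) (g : Fin k → O) {w : ℕ}
    (hw : ∀ c, {a | g a = c}.ncard ≤ w) (m T : ℕ) :
    (Nat.card {I : Input m k // B.OutputsBy (look I) T (g (nodeValue m (look I) []))} : ℝ) ≤
      (w / k + 2 ^ (m + 1) * T / k + Fintype.card Q * (2 * m * T / k) ^ m) *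
        Nat.card (Input m k) := by
  refine le_trans ?_ (main' B g hw m T)
  have h : Nat.card {I : Input m k // B.OutputsBy (look I) T (g (nodeValue m (look I) []))} ≤
      Nat.card {I : Input m k // B.Outputs (look I) (g (nodeValue m (look I) [])) ∧
        B.Frugal m T (look I)} := by
    refine Nat.card_le_card_of_injective (fun I => ⟨I.1, ?_, frugal_of_outputsBy I.2⟩) ?_
    · obtain ⟨s, _, hs⟩ := I.2
      exact ⟨s, hs⟩
    · intro I I' h
      exact Subtype.ext (congrArg (fun y => y.1) h)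
  exact_mod_cast h

/-- programs with an advantage -/
theorem main_adv [Fintype Q] (B : Prog k O Q) (g : Fin k → O) {w : ℕ}
    (hw : ∀ c, {a | g a = c}.ncard ≤ w) (m t : ℕ) (hm : 0 < m) (δ : ℝ)
    (hk : 2 ^ (m + 2) * t ≤ δ * k)
    (hB : (w / k + δ) * Nat.card (Input m k) ≤
      Nat.card {I : Input m k // B.Outputs (look I) (g (nodeValue m (look I) [])) ∧
        B.Frugal m t (look I)}) :
    δ * ((k : ℝ) / (2 * m * t)) ^ m ≤ 2 * Fintype.card Q := by
  have h := hB.trans (main' B g hw m t)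
  have hN : (0 : ℝ) < Nat.card (Input m k) := by
    have : 0 < Nat.card (Input m k) := Nat.card_pos
    exact_mod_cast this
  have h1 := le_of_mul_le_mul_right h hN
  have hk0 : (0 : ℝ) < k := by
    have : 0 < k := Nat.pos_of_ne_zero (NeZero.ne k)
    exact_mod_cast this
  rcases Nat.eq_zero_or_pos t with ht | ht
  · rw [ht, Nat.cast_zero, mul_zero, div_zero, zero_pow hm.ne', mul_zero]
    positivity
  have h2 : (2 : ℝ) ^ (m + 1) * t / k ≤ δ / 2 := by
    rw [div_le_div_iff₀ hk0 (by norm_num)]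
    calc (2 : ℝ) ^ (m + 1) * t * 2 = 2 ^ (m + 2) * t := by ring
      _ ≤ δ * k := hk
  have h4 : δ / 2 ≤ Fintype.card Q * (2 * m * t / k) ^ m := by linarith
  have hm0 : (0 : ℝ) < m := by exact_mod_cast hm
  have ht0 : (0 : ℝ) < t := by exact_mod_cast ht
  have h5 : ((k : ℝ) / (2 * m * t)) ^ m * (2 * m * t / k) ^ m = 1 := by
    rw [← mul_pow]
    have : (k : ℝ) / (2 * m * t) * (2 * m * t / k) = 1 := by field_simp
    rw [this, one_pow]
  have h6 : (0 : ℝ) ≤ ((k : ℝ) / (2 * m * t)) ^ m := by positivity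
  have h7 := mul_le_mul_of_nonneg_left h4 h6
  have h8 : ((k : ℝ) / (2 * m * t)) ^ m * (Fintype.card Q * (2 * m * t / k) ^ m) =
      Fintype.card Q := by
    calc ((k : ℝ) / (2 * m * t)) ^ m * (Fintype.card Q * (2 * m * t / k) ^ m) =
        Fintype.card Q * (((k : ℝ) / (2 * m * t)) ^ m * (2 * m * t / k) ^ m) := by ring
      _ = Fintype.card Q := by rw [h5, mul_one]
  rw [h8] at h7
  linarith

theorem two_mul_le_two_pow {m : ℕ} (hm : 0 < m) : 2 * m ≤ 2 ^ m := by
  obtain ⟨n, rfl⟩ := Nat.exists_eq_succ_of_ne_zero hm.ne'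
  have h : n < 2 ^ n := Nat.lt_two_pow_self
  rw [Nat.succ_eq_add_one, pow_succ]
  omega

/-- quasi-polynomially many states are needed for tables of polynomial size -/
theorem main_power [Fintype Q] (B : Prog k O Q) (g : Fin k → O) {w : ℕ}
    (hw : ∀ c, {a | g a = c}.ncard ≤ w) (m t d e : ℕ) (hm : 0 < m) (he : 0 < e)
    (hk : k = 2 ^ ((d + e + 1) * m)) (ht : t = 2 ^ (d * m))
    (hQ : 2 ^ m * Fintype.card Q ≤ 2 ^ (e * m ^ 2)) :
    (Nat.card {I : Input m k // B.Outputs (look I) (g (nodeValue m (look I) [])) ∧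
      B.Frugal m t (look I)} : ℝ) ≤ (w / k + 3 / 2 ^ m) * Nat.card (Input m k) := by
  refine (main' B g hw m t).trans (mul_le_mul_of_nonneg_right ?_ (Nat.cast_nonneg _))
  have hkR : (k : ℝ) = 2 ^ (d * m) * 2 ^ (e * m) * 2 ^ m := by
    rw [hk]
    push_cast
    rw [← pow_add, ← pow_add]
    congr 1
    ring
  have htR : (t : ℝ) = 2 ^ (d * m) := by
    rw [ht]
    push_cast
    rfl
  have hd : (0 : ℝ) < 2 ^ (d * m) := by positivity
  have he' : (0 : ℝ) < 2 ^ (e * m) := by positivity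
  have hm' : (0 : ℝ) < 2 ^ m := by positivity
  have h1 : (2 : ℝ) ^ (m + 1) * t / k = 2 / 2 ^ (e * m) := by
    rw [hkR, htR, pow_succ]
    field_simp
  have h2 : (2 : ℝ) ^ m ≤ 2 ^ (e * m) :=
    pow_le_pow_right₀ (by norm_num) (Nat.le_mul_of_pos_left m he)
  have h3 : (2 : ℝ) / 2 ^ (e * m) ≤ 2 / 2 ^ m := by
    exact div_le_div_of_nonneg_left (by norm_num) hm' h2
  have h4 : (2 * m * t / k : ℝ) ≤ 1 / 2 ^ (e * m) := by
    rw [hkR, htR, div_le_div_iff₀ (by positivity) he', one_mul]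
    have h5 : ((2 * m : ℕ) : ℝ) ≤ ((2 ^ m : ℕ) : ℝ) := by exact_mod_cast two_mul_le_two_pow hm
    push_cast at h5
    calc (2 : ℝ) * m * 2 ^ (d * m) * 2 ^ (e * m) = 2 * m * (2 ^ (d * m) * 2 ^ (e * m)) := by ring
      _ ≤ 2 ^ m * (2 ^ (d * m) * 2 ^ (e * m)) := mul_le_mul_of_nonneg_right h5 (by positivity)
      _ = 2 ^ (d * m) * 2 ^ (e * m) * 2 ^ m := by ring
  have h6 : (2 * m * t / k : ℝ) ^ m ≤ 1 / 2 ^ (e * m ^ 2) := by
    calc (2 * m * t / k : ℝ) ^ m ≤ (1 / 2 ^ (e * m)) ^ m := pow_le_pow_left₀ (by positivity) h4 m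
      _ = 1 / 2 ^ (e * m ^ 2) := by
        rw [div_pow, one_pow, ← pow_mul]
        congr 2
        ring
  have h7 : (2 : ℝ) ^ m * Fintype.card Q ≤ 2 ^ (e * m ^ 2) := by exact_mod_cast hQ
  have h8 : (Fintype.card Q : ℝ) * (2 * m * t / k) ^ m ≤ 1 / 2 ^ m := by
    calc (Fintype.card Q : ℝ) * (2 * m * t / k) ^ m ≤ Fintype.card Q * (1 / 2 ^ (e * m ^ 2)) :=
        mul_le_mul_of_nonneg_left h6 (Nat.cast_nonneg _)
      _ ≤ 1 / 2 ^ m := by
        rw [mul_one_div, div_le_div_iff₀ (by positivity) hm', one_mul]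
        linarith
  have h9 : (3 : ℝ) / 2 ^ m = 2 / 2 ^ m + 1 / 2 ^ m := by ring
  rw [h1, h9, add_assoc]
  exact add_le_add le_rfl (add_le_add h3 h8)

end Pool.Agent.V8H86.TE
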