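import Pool.Agent.V8H86.TE.Decode
import Pool.Agent.V8H86.TE.Count

/-!
# The main theorem
-/

namespace Pool.Agent.V8H86.TE

open Finset Function

variable {k : ℕ} {O Q : Type}

/-! ### the number of nodes -/

/-- a code of the nodes -/
def code : List Bool → ℕ
  | [] => 0
  | b :: p => 2 * code p + 1 + b.toNat

theorem code_le (p : List Bool) : code p + 2 ≤ 2 ^ (p.length + 1) := by
  induction p with
  | nil => simp [code]
  | cons b p ih =>
    rw [List.length_cons, pow_succ]
    have h : b.toNat ≤ 1 := Bool.toNat_le b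
    simp only [code]
    omega

theorem code_injective : Injective code := by
  intro p
  induction p with
  | nil =>
    intro q h
    cases q with
    | nil => rfl
    | cons b q =>
      simp only [code] at h
      omega
  | cons a p ih =>
    intro q h
    cases q with
    | nil =>
      simp only [code] at h
      omega
    | cons b q =>
      simp only [code] at h
      have h1 : a.toNat ≤ 1 := Bool.toNat_le a
      have h2 : b.toNat ≤ 1 := Bool.toNat_le b
      have h3 : a.toNat = b.toNat := by omega
      have h4 : code p = code q := by omega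
      rw [ih h4]
      congr 1
      cases a <;> cases b <;> simp at h3 <;> rfl

/-- the inner nodes -/
noncomputable def inner (m : ℕ) : Finset (List Bool) := (List.finite_length_lt Bool m).toFinset

theorem mem_inner {m : ℕ} {p : List Bool} : p ∈ inner m ↔ p.length < m := by
  simp [inner]

theorem card_inner (m : ℕ) : (inner m).card + 1 ≤ 2 ^ m := by
  have h : (inner m).card ≤ (range (2 ^ m - 1)).card := by
    refine Finset.card_le_card_of_injOn code ?_ code_injective.injOn
    intro p hp
    have hp' : p.length < m := mem_inner.1 hp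
    have h1 := code_le p
    have h2 : 2 ^ (p.length + 1) ≤ 2 ^ m := Nat.pow_le_pow_right (by norm_num) (by omega)
    simp only [Finset.coe_range, Set.mem_Iio]
    omega
  rw [Finset.card_range] at h
  have : 0 < 2 ^ m := by positivity
  omega

/-! ### the inputs -/

instance finite_vars (m k : ℕ) : Finite {x : Var k // x.Ok m} := by
  have h1 : {x : Var k | x.Ok m} ⊆ (Var.leaf '' {p : List Bool | p.length < m + 1}) ∪
      ((fun y : List Bool × Fin k × Fin k => Var.entry y.1 y.2.1 y.2.2) ''
        ({p : List Bool | p.length < m} ×ˢ (Set.univ ×ˢ Set.univ))) := by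
    rintro (p | ⟨p, a, b⟩) hx
    · left
      exact ⟨p, Nat.lt_succ_of_le (le_of_eq hx), rfl⟩
    · right
      exact ⟨(p, a, b), ⟨hx, Set.mem_univ _, Set.mem_univ _⟩, rfl⟩
  exact ((((List.finite_length_lt Bool (m + 1)).image _).union
    (((List.finite_length_lt Bool m).prod (Set.finite_univ.prod Set.finite_univ)).image _)).subset
    h1).to_subtype

noncomputable instance fintype_vars (m k : ℕ) : Fintype {x : Var k // x.Ok m} :=
  Fintype.ofFinite _

variable [NeZero k] {m : ℕ}

theorem look_shift {ι : Type} [Fintype ι] (l : ι → {x : Var k // x.Ok m}) (u : ι → Fin k)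
    (I : Input m k) (x : Var k) :
    look (shift l u I) x = look I x + ∑ d, if (l d).1 = x then u d else 0 := by
  unfold look
  by_cases h : x.Ok m
  · rw [dif_pos h, dif_pos h]
    unfold shift
    simp only [Subtype.ext_iff]
  · rw [dif_neg h, dif_neg h, zero_add]
    symm
    refine Finset.sum_eq_zero fun d _ => ?_
    rw [if_neg]
    rintro rfl
    exact h (l d).2

theorem look_shift_off {ι : Type} [Fintype ι] (l : ι → {x : Var k // x.Ok m}) (u : ι → Fin k)
    (I : Input m k) {x : Var k} (hx : ∀ d, (l d).1 ≠ x) : look (shift l u I) x = look I x := by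
  rw [look_shift, Finset.sum_eq_zero fun d _ => if_neg (hx d), add_zero]

theorem look_shift_on {ι : Type} [Fintype ι] [DecidableEq ι] (l : ι → {x : Var k // x.Ok m})
    (hl : Injective l) (u : ι → Fin k) (I : Input m k) (d : ι) :
    look (shift l u I) (l d).1 = look I (l d).1 + u d := by
  rw [look_shift, Finset.sum_eq_single d]
  · rw [if_pos rfl]
  · intro e _ he
    rw [if_neg]
    intro h
    exact he (hl (Subtype.ext h))
  · intro h
    exact absurd (mem_univ _) h

/-! ### one place -/

/-- the place of a node -/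
noncomputable def place (m : ℕ) (p : List Bool) (hp : p.length ≤ m) (I : Input m k) :
    Unit → {x : Var k // x.Ok m} := fun _ => ⟨rightVar m (look I) p, tv_ok _ hp⟩

theorem place_tv {p : List Bool} (hp : p.length ≤ m) (I : Input m k) (u : Unit → Fin k) :
    rightVar m (look (shift (place m p hp I) u I)) p = rightVar m (look I) p := by
  refine tv_congr fun x _ hx => look_shift_off _ _ _ fun d h => hx ?_
  rw [← h]
  exact tv_node _ _ _

theorem place_shift {p : List Bool} (hp : p.length ≤ m) (I : Input m k) (u : Unit → Fin k) :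
    place m p hp (shift (place m p hp I) u I) = place m p hp I := by
  funext d
  exact Subtype.ext (place_tv hp I u)

theorem place_off {p : List Bool} (hp : p.length ≤ m) (I : Input m k) (u : Unit → Fin k)
    {x : Var k} (hx : x ≠ rightVar m (look I) p) :
    look (shift (place m p hp I) u I) x = look I x :=
  look_shift_off _ _ _ fun _ h => hx h.symm

theorem place_on {p : List Bool} (hp : p.length ≤ m) (I : Input m k) (u : Unit → Fin k) :
    look (shift (place m p hp I) u I) (rightVar m (look I) p) = look I (rightVar m (look I) p) + u () :=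
  look_shift_on (place m p hp I) (fun _ _ _ => rfl) u I ()

/-- the output is right, but the variable of the root is not read -/
def Bad0 (B : Prog k O Q) (g : Fin k → O) (m : ℕ) (J : Var k → Fin k) : Prop :=
  B.Outputs J (g (nodeValue m J [])) ∧ ¬ ∃ s, B.ReadsAt J s (rightVar m J [])

open Classical in
theorem count_bad0 (B : Prog k O Q) (g : Fin k → O) {w : ℕ} (hw : ∀ c, {a | g a = c}.ncard ≤ w)
    (m : ℕ) : (univ.filter fun I : Input m k => Bad0 B g m (look I)).card * k ≤
      w * Fintype.card (Input m k) := by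
  have h := count (place m [] (Nat.zero_le m)) (place_shift (Nat.zero_le m))
    (fun I : Input m k => Bad0 B g m (look I)) w ?_
  · simpa using h
  intro I
  have hn : ([] : List Bool).length ≤ m := Nat.zero_le m
  obtain ⟨τ, hτ⟩ : ∃ τ, τ = rightVar m (look I) [] := ⟨_, rfl⟩
  obtain ⟨F, hF⟩ : ∃ F : (Unit → Fin k) → Var k → Fin k,
    F = fun u => look (shift (place m [] hn I) u I) := ⟨_, rfl⟩
  have t1 : ∀ u, rightVar m (F u) [] = τ := by
    intro u
    rw [hF, hτ]
    exact place_tv hn I u
  have e1 : ∀ u, F u τ = look I τ + u () := by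
    intro u
    rw [hF, hτ]
    exact place_on hn I u
  have e3 : ∀ u v x, x ≠ τ → F u x = F v x := by
    intro u v x hx
    rw [hτ] at hx
    rw [hF]
    dsimp only
    rw [place_off hn I u hx, place_off hn I v hx]
  have hset : {u : Unit → Fin k | Bad0 B g m (look (shift (place m [] hn I) u I))} =
      {u | Bad0 B g m (F u)} := by rw [hF]
  rw [hset]
  rcases Set.eq_empty_or_nonempty {u : Unit → Fin k | Bad0 B g m (F u)} with h0 | ⟨u₀, hu₀⟩
  · rw [h0, Set.ncard_empty]
    exact Nat.zero_le _
  refine le_trans (Set.ncard_le_ncard_of_injOn (fun u => F u τ) ?_ ?_ (Set.toFinite _))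
    (hw (g (nodeValue m (F u₀) [])))
  · intro u hu
    have hrun : ∀ s, (B.step (F u))^[s] B.start = (B.step (F u₀))^[s] B.start := by
      intro s
      refine run_congr B B.start s fun r _ x hx => e3 u u₀ x ?_
      rintro rfl
      exact hu.2 ⟨r, by rw [t1]; exact hx⟩
    obtain ⟨s, hs⟩ := hu.1
    obtain ⟨s', hs'⟩ := hu₀.1
    rw [← hrun s'] at hs'
    have h1 := output_unique B hs hs'
    rw [nodeValue_eq m (F u), t1] at h1
    exact h1
  · intro u _ v _ huv
    dsimp only at huv
    rw [e1, e1] at huv
    funext d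
    exact add_left_cancel huv

/-- a lucky read -/
def Bad (B : Prog k O Q) (m t : ℕ) (b : Bool) (p : List Bool) (J : Var k → Fin k) : Prop :=
  B.Frugal m t J ∧ ∃ s, B.ReadsAt J s (rightVar m J p) ∧ ∀ s' < s, ¬ B.ReadsAt J s' (rightVar m J (b :: p))

open Classical in
theorem count_bad (B : Prog k O Q) (t : ℕ) (b : Bool) {p : List Bool} (hp : p.length < m) :
    (univ.filter fun I : Input m k => Bad B m t b p (look I)).card * k ≤
      t * Fintype.card (Input m k) := by
  have hn : (b :: p).length ≤ m := hp
  have h := count (place m (b :: p) hn) (place_shift hn)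
    (fun I : Input m k => Bad B m t b p (look I)) t ?_
  · simpa using h
  intro I
  obtain ⟨τ, hτ⟩ : ∃ τ, τ = rightVar m (look I) (b :: p) := ⟨_, rfl⟩
  obtain ⟨F, hF⟩ : ∃ F : (Unit → Fin k) → Var k → Fin k,
    F = fun u => look (shift (place m (b :: p) hn I) u I) := ⟨_, rfl⟩
  have t1 : ∀ u, rightVar m (F u) (b :: p) = τ := by
    intro u
    rw [hF, hτ]
    exact place_tv hn I u
  have e1 : ∀ u, F u τ = look I τ + u () := by
    intro u
    rw [hF, hτ]
    exact place_on hn I u
  have e3 : ∀ u v x, x ≠ τ → F u x = F v x := by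
    intro u v x hx
    rw [hτ] at hx
    rw [hF]
    dsimp only
    rw [place_off hn I u hx, place_off hn I v hx]
  have hset : {u : Unit → Fin k | Bad B m t b p (look (shift (place m (b :: p) hn I) u I))} =
      {u | Bad B m t b p (F u)} := by rw [hF]
  rw [hset]
  rcases Set.eq_empty_or_nonempty {u : Unit → Fin k | Bad B m t b p (F u)} with h0 | hne
  · rw [h0, Set.ncard_empty]
    exact Nat.zero_le _
  -- the latest first reading
  obtain ⟨u₀, hu₀, hmax⟩ := Set.exists_max_image {u : Unit → Fin k | Bad B m t b p (F u)}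
    (fun u => fst B m B.start p (F u)) (Set.toFinite _) hne
  have hfst : ∀ u ∈ {u : Unit → Fin k | Bad B m t b p (F u)},
      B.ReadsAt (F u) (fst B m B.start p (F u)) (rightVar m (F u) p) ∧
      (∀ r < fst B m B.start p (F u), ¬ B.ReadsAt (F u) r (rightVar m (F u) p)) ∧
      ∀ r < fst B m B.start p (F u), ¬ B.ReadsAt (F u) r τ := by
    rintro u ⟨-, s, hs1, hs2⟩
    obtain ⟨g1, g2, g3⟩ := fst_spec hs1
    refine ⟨g1, g3, fun r hr => ?_⟩
    have h1 := hs2 r (by omega)
    rwa [t1] at h1
  have hu₀f := hfst u₀ hu₀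
  have hbound := hu₀.1 p b 0 _ hp hu₀f.1 fun r _ hr => ⟨hu₀f.2.1 r hr, by
    rw [t1]
    exact hu₀f.2.2 r hr⟩
  refine le_trans (Set.ncard_le_ncard_of_injOn (fun u => F u τ) ?_ ?_ (Set.toFinite _)) hbound
  · intro u hu
    obtain ⟨hs1, -, hs2⟩ := hfst u hu
    have hle : fst B m B.start p (F u) ≤ fst B m B.start p (F u₀) := hmax u hu
    have hrun : (B.step (F u))^[fst B m B.start p (F u)] B.start =
        (B.step (F u₀))^[fst B m B.start p (F u)] B.start := by
      refine run_congr B B.start _ fun r hr x hx => e3 u u₀ x ?_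
      rintro rfl
      exact hs2 r hr hx
    have hsib : line m (F u) p b = line m (F u₀) p b := by
      refine line_congr (nodeValue_congr fun x hx => e3 u u₀ x ?_)
      rintro rfl
      rw [hτ, tv_node] at hx
      have h2 := (List.cons.inj (hx.eq_of_length (by simp))).1
      cases b <;> simp at h2
    refine ⟨_, Nat.zero_le _, hle, ?_⟩
    unfold Prog.ReadsAt
    rw [← hrun, ← hsib]
    have h3 : F u τ = nodeValue m (F u) (b :: p) := by rw [nodeValue_eq, t1]
    rw [h3, ← tv_inner (F u) hp]
    exact hs1
  · intro u _ v _ huv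
    dsimp only at huv
    rw [e1, e1] at huv
    funext d
    exact add_left_cancel huv

/-! ### the classes -/

open Classical in
theorem count_cls (B : Prog k O Q) (t : ℕ) (q : Q) {β : Fin m → Bool} {π : Fin m → List Bool}
    (ha : Adm β π) :
    (univ.filter fun I : Input m k => Cls B m t q β π (look I)).card * k ^ m ≤
      t ^ m * Fintype.card (Input m k) := by
  have hn : ∀ i, (β i :: π i).length ≤ m := fun i => ha.1 i
  obtain ⟨loc, hloc⟩ : ∃ loc : Input m k → Fin m → {x : Var k // x.Ok m},
    loc = fun I i => ⟨rightVar m (look I) (β i :: π i), tv_ok _ (hn i)⟩ := ⟨_, rfl⟩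
  have hlv : ∀ I i, (loc I i).1 = rightVar m (look I) (β i :: π i) := fun I i => by rw [hloc]
  have htv : ∀ I u i, rightVar m (look (shift (loc I) u I)) (β i :: π i) =
      rightVar m (look I) (β i :: π i) := by
    intro I u i
    refine tv_congr fun x hx hxn => look_shift_off _ _ _ fun j h => ?_
    rw [hlv] at h
    rw [← h, tv_node] at hx hxn
    by_cases hij : i = j
    · exact hxn (by rw [hij])
    · exact (ha.2 i j hij).2 hx
  have hfix : ∀ I u, loc (shift (loc I) u I) = loc I := by
    intro I u
    funext i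
    refine Subtype.ext ?_
    rw [hlv, hlv]
    exact htv I u i
  have hinj : ∀ I, Injective (loc I) := by
    intro I i j hij
    by_contra hne
    have h1 : (loc I i).1.node = (loc I j).1.node := by rw [hij]
    rw [hlv, hlv, tv_node, tv_node] at h1
    exact (ha.2 i j hne).1 (List.cons.inj h1).2
  have h := count loc hfix (fun I : Input m k => Cls B m t q β π (look I)) (t ^ m) ?_
  · simpa using h
  intro I
  have hcard : (t ^ m) = ((Fintype.piFinset fun _ : Fin m => range t : Finset (Fin m → ℕ)) :
      Set (Fin m → ℕ)).ncard := by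
    rw [Set.ncard_coe_finset, Fintype.card_piFinset]
    simp
  rw [hcard]
  refine Set.ncard_le_ncard_of_injOn
    (fun u i => rank B m q (β i) (π i) (look (shift (loc I) u I))) ?_ ?_ (Finset.finite_toSet _)
  · intro u hu
    simp only [Finset.mem_coe, Fintype.mem_piFinset, Finset.mem_range]
    exact fun i => rank_lt ha hu i
  · intro u hu v hv huv
    have h1 : look (shift (loc I) u I) = look (shift (loc I) v I) := by
      refine decode ha ?_ hu hv fun i => congrFun huv i
      intro x hx
      by_contra hcon
      push Not at hcon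
      apply hx
      rw [look_shift_off _ _ _ fun i h => hcon i (by rw [htv, ← hlv, h]),
        look_shift_off _ _ _ fun i h => hcon i (by rw [htv, ← hlv, h])]
    funext i
    have h2 := congrFun h1 (loc I i).1
    rw [look_shift_on _ (hinj I), look_shift_on _ (hinj I)] at h2
    exact add_left_cancel h2

/-! ### the cover -/

omit [NeZero k] in
theorem cover {B : Prog k O Q} {g : Fin k → O} {t : ℕ} {J : Var k → Fin k}
    (h1 : B.Outputs J (g (nodeValue m J []))) (h2 : B.Frugal m t J) :
    Bad0 B g m J ∨ (∃ b, ∃ p ∈ inner m, Bad B m t b p J) ∨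
      ∃ (q : Q) (l : List.Vector Bool m) (d : Fin m → Fin m), Adm (bt l d) (pt l d) ∧
        Cls B m t q (bt l d) (pt l d) J := by
  by_cases h3 : ∃ s, B.ReadsAt J s (rightVar m J [])
  · right
    by_cases h4 : ∃ b, ∃ p ∈ inner m, Bad B m t b p J
    · exact Or.inl h4
    · right
      obtain ⟨s₀, hs₀⟩ := h3
      refine cls_of_good (s₀ := s₀) ?_ hs₀ h2
      intro p hp b s hs
      by_contra hcon
      push Not at hcon
      exact h4 ⟨b, p, mem_inner.2 hp, h2, s, hs, hcon⟩
  · exact Or.inl ⟨h1, h3⟩

open Classical in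
theorem main [Fintype Q] (B : Prog k O Q) (g : Fin k → O) {w : ℕ}
    (hw : ∀ c, {a | g a = c}.ncard ≤ w) (m t : ℕ) :
    ((univ.filter fun I : Input m k => B.Outputs (look I) (g (nodeValue m (look I) [])) ∧
      B.Frugal m t (look I)).card : ℝ) ≤
      (w / k + 2 ^ (m + 1) * t / k + Fintype.card Q * (2 * m * t / k) ^ m) *
        Fintype.card (Input m k) := by
  obtain ⟨N, hN⟩ : ∃ N, N = Fintype.card (Input m k) := ⟨_, rfl⟩
  obtain ⟨A0, hA0⟩ : ∃ A0, A0 = univ.filter fun I : Input m k => Bad0 B g m (look I) := ⟨_, rfl⟩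
  obtain ⟨A1, hA1⟩ : ∃ A1 : Bool × List Bool → Finset (Input m k), A1 = fun y =>
    univ.filter fun I : Input m k => Bad B m t y.1 y.2 (look I) := ⟨_, rfl⟩
  obtain ⟨A2, hA2⟩ : ∃ A2 : Q × List.Vector Bool m × (Fin m → Fin m) → Finset (Input m k),
    A2 = fun y => univ.filter fun I : Input m k => Adm (bt y.2.1 y.2.2) (pt y.2.1 y.2.2) ∧
      Cls B m t y.1 (bt y.2.1 y.2.2) (pt y.2.1 y.2.2) (look I) := ⟨_, rfl⟩
  have hcov : (univ.filter fun I : Input m k => B.Outputs (look I) (g (nodeValue m (look I) [])) ∧
      B.Frugal m t (look I)) ⊆ A0 ∪ ((univ ×ˢ inner m).biUnion A1 ∪ univ.biUnion A2) := by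
    intro I hI
    rw [Finset.mem_filter] at hI
    rw [Finset.mem_union, Finset.mem_union, Finset.mem_biUnion, Finset.mem_biUnion]
    rcases cover hI.2.1 hI.2.2 with h | ⟨b, p, hp, h⟩ | ⟨q, l, d, h, h'⟩
    · left
      rw [hA0]
      simpa using h
    · right; left
      refine ⟨(b, p), by simpa using hp, ?_⟩
      rw [hA1]
      simpa using h
    · right; right
      refine ⟨(q, l, d), mem_univ _, ?_⟩
      rw [hA2]
      simpa using ⟨h, h'⟩
  have hk : (0 : ℝ) < k := by
    have : 0 < k := Nat.pos_of_ne_zero (NeZero.ne k)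
    exact_mod_cast this
  have hN0 : (0 : ℝ) ≤ N := Nat.cast_nonneg N
  have b0 : (A0.card : ℝ) ≤ w / k * N := by
    have h := count_bad0 B g hw m
    rw [← hA0, ← hN] at h
    have h' : (A0.card : ℝ) * k ≤ w * N := by exact_mod_cast h
    rw [div_mul_eq_mul_div, le_div_iff₀ hk]
    exact h'
  have b1 : ∀ y ∈ (univ ×ˢ inner m : Finset (Bool × List Bool)),
      ((A1 y).card : ℝ) ≤ t / k * N := by
    rintro ⟨b, p⟩ hy
    have hp : p.length < m := mem_inner.1 (Finset.mem_product.1 hy).2
    have h := count_bad B t b hp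
    have h' : ((A1 (b, p)).card : ℝ) * k ≤ t * N := by
      rw [hA1, hN]
      exact_mod_cast h
    rw [div_mul_eq_mul_div, le_div_iff₀ hk]
    exact h'
  have b2 : ∀ y ∈ (univ : Finset (Q × List.Vector Bool m × (Fin m → Fin m))),
      ((A2 y).card : ℝ) ≤ (t / k) ^ m * N := by
    rintro ⟨q, l, d⟩ -
    by_cases ha : Adm (bt l d) (pt l d)
    · have h := count_cls B t q ha
      have h' : ((A2 (q, l, d)).card : ℝ) * k ^ m ≤ t ^ m * N := by
        rw [hA2, hN]
        have h2 : (univ.filter fun I : Input m k => Adm (bt l d) (pt l d) ∧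
            Cls B m t q (bt l d) (pt l d) (look I)).card ≤
            (univ.filter fun I : Input m k => Cls B m t q (bt l d) (pt l d) (look I)).card := by
          refine Finset.card_le_card fun I hI => ?_
          rw [Finset.mem_filter] at hI ⊢
          exact ⟨hI.1, hI.2.2⟩
        have h3 := (Nat.mul_le_mul_right (k ^ m) h2).trans h
        exact_mod_cast h3
      rw [div_pow, div_mul_eq_mul_div, le_div_iff₀ (by positivity)]
      exact h'
    · have h0 : A2 (q, l, d) = ∅ := by
        rw [hA2]
        dsimp only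
        rw [Finset.filter_eq_empty_iff]
        rintro I - ⟨h1, -⟩
        exact ha h1
      rw [h0, Finset.card_empty, Nat.cast_zero]
      positivity
  have s1 : (((univ ×ˢ inner m).biUnion A1).card : ℝ) ≤ 2 * (2 ^ m - 1) * (t / k * N) := by
    calc (((univ ×ˢ inner m).biUnion A1).card : ℝ)
        ≤ ((∑ y ∈ univ ×ˢ inner m, (A1 y).card : ℕ) : ℝ) := by
          exact_mod_cast Finset.card_biUnion_le
      _ = ∑ y ∈ univ ×ˢ inner m, ((A1 y).card : ℝ) := by push_cast; rfl
      _ ≤ ∑ _y ∈ (univ ×ˢ inner m : Finset (Bool × List Bool)), (t / k * N : ℝ) :=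
          Finset.sum_le_sum b1
      _ = (2 * (inner m).card : ℕ) * (t / k * N : ℝ) := by
          rw [Finset.sum_const, Finset.card_product, Finset.card_univ, Fintype.card_bool,
            nsmul_eq_mul]
      _ ≤ 2 * (2 ^ m - 1) * (t / k * N) := by
          refine mul_le_mul_of_nonneg_right ?_ (by positivity)
          have h := card_inner m
          have h' : ((inner m).card : ℝ) + 1 ≤ 2 ^ m := by exact_mod_cast h
          push_cast
          linarith
  have s2 : ((univ.biUnion A2).card : ℝ) ≤ Fintype.card Q * (2 * m * t / k) ^ m * N := by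
    calc ((univ.biUnion A2).card : ℝ)
        ≤ ((∑ y, (A2 y).card : ℕ) : ℝ) := by
          exact_mod_cast Finset.card_biUnion_le
      _ = ∑ y, ((A2 y).card : ℝ) := by push_cast; rfl
      _ ≤ ∑ _y : Q × List.Vector Bool m × (Fin m → Fin m), ((t / k) ^ m * N : ℝ) :=
          Finset.sum_le_sum b2
      _ = (Fintype.card Q * (2 ^ m * m ^ m) : ℕ) * ((t / k) ^ m * N : ℝ) := by
          rw [Finset.sum_const, Finset.card_univ, nsmul_eq_mul]
          simp [Fintype.card_prod]
      _ = Fintype.card Q * (2 * m * t / k) ^ m * N := by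
          push_cast
          rw [div_pow, div_pow, mul_pow, mul_pow]
          ring
  have hfin : ((univ.filter fun I : Input m k => B.Outputs (look I) (g (nodeValue m (look I) [])) ∧
      B.Frugal m t (look I)).card : ℝ) ≤ A0.card + (((univ ×ˢ inner m).biUnion A1).card +
        (univ.biUnion A2).card) := by
    have h1 := Finset.card_le_card hcov
    have h2 := Finset.card_union_le A0 ((univ ×ˢ inner m).biUnion A1 ∪ univ.biUnion A2)
    have h3 := Finset.card_union_le ((univ ×ˢ inner m).biUnion A1) (univ.biUnion A2)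
    exact_mod_cast h1.trans (h2.trans (Nat.add_le_add_left h3 _))
  rw [← hN]
  have h5 : (0 : ℝ) ≤ t / k * N := by positivity
  have h6 : (2 : ℝ) ^ (m + 1) * t / k * N = 2 * 2 ^ m * (t / k * N) := by
    rw [pow_succ]; ring
  rw [add_mul, add_mul, h6]
  nlinarith

end Pool.Agent.V8H86.TE
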